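import Pool.Agent.Helper33.QB.Defs

/-!
# Project QB, module F1: the order of raw conditions
-/

set_option autoImplicit false

namespace Pool.Agent.Helper33.QB

open Set

universe v

variable {Ω : Type} {I : Type v} {α : Ordinal.{0}}

/-! ### F1: Order.lean, the order of raw conditions -/
section F1

variable {p q r s : Cnd Ω I} {pn : ℕ → Cnd Ω I}

private theorem h61_clopen {Y : Set Ω} {R : Set (Set Ω)} {r : Ω → Ordinal.{0}} (h : GR Y R r)
    {A : Set Ω} (hAY : A ⊆ Y) (hA : ∀ K ∈ R, K ∩ A ∈ R) : GR A (tr R A) r where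
  sub := by
    rintro K ⟨K', -, rfl⟩
    exact inter_subset_right
  emp := ⟨∅, h.emp, by simp⟩
  un := by
    rintro K ⟨K', h1, rfl⟩ L ⟨L', h2, rfl⟩
    exact ⟨K' ∪ L', h.un _ h1 _ h2, by rw [union_inter_distrib_right]⟩
  df := by
    rintro K ⟨K', h1, rfl⟩ L ⟨L', h2, rfl⟩
    refine ⟨K' \ L', h.df _ h1 _ h2, ?_⟩
    ext x
    simp only [mem_sdiff, mem_inter_iff]
    tauto
  cov := by
    intro x hx
    obtain ⟨K, hK, hxK⟩ := h.cov x (hAY hx)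
    exact ⟨K ∩ A, ⟨K, hK, rfl⟩, hxK, hx⟩
  sep := by
    intro x hx y hy hxy
    obtain ⟨K, hK, hxK, hyK⟩ := h.sep x (hAY hx) y (hAY hy) hxy
    exact ⟨K ∩ A, ⟨K, hK, rfl⟩, ⟨hxK, hx⟩, fun h' => hyK h'.1⟩
  top := by
    rintro K ⟨K', h1, rfl⟩ hn
    exact h.top _ (hA _ h1) hn
  ex := by
    rintro K ⟨K', h1, rfl⟩ x hx β hβ
    exact h.ex _ (hA _ h1) x hx β hβ

private theorem h61_part {G G1 : I → Ω → Ω → Prop} {A : Set Ω}
    (hA : ∀ i x y, G i x y → (x ∈ A ↔ y ∈ A)) (h1 : ∀ i x y, G i x y → x ∈ A → G1 i x y)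
    {g : FreeGroup I} {x y : Ω} (h : Acts G g x y) (hx : x ∈ A) : Acts G1 g x y ∧ y ∈ A := by
  induction h with
  | one x => exact ⟨Acts.one x, hx⟩
  | fwd _ e ih =>
    obtain ⟨ih1, ih2⟩ := ih hx
    exact ⟨Acts.fwd ih1 (h1 _ _ _ e ih2), (hA _ _ _ e).1 ih2⟩
  | bwd _ e ih =>
    obtain ⟨ih1, ih2⟩ := ih hx
    have hz := (hA _ _ _ e).2 ih2
    exact ⟨Acts.bwd ih1 (h1 _ _ _ e hz), hz⟩

private theorem h61_noedge {G : I → Ω → Ω → Prop} (hG : ∀ i x y, ¬ G i x y) {g : FreeGroup I}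
    {x y : Ω} (h : Acts G g x y) : g = 1 := by
  cases h with
  | one x => rfl
  | fwd _ e => exact absurd e (hG _ _ _)
  | bwd _ e => exact absurd e (hG _ _ _)

theorem Cp.refl' (h : GR p.Y p.R p.r) : Cp p p where
  sub := subset_rfl
  ring := fun K => ⟨fun hK => ⟨hK, h.sub K hK⟩, fun hK => hK.1⟩
  cut := fun K hK => by rwa [inter_eq_left.2 (h.sub K hK)]
  rk := fun _ _ => rfl

theorem Cp.trans' (h1 : Cp p q) (h2 : Cp q r) : Cp p r where
  sub := h1.sub.trans h2.sub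
  ring := fun K => by
    rw [h1.ring, h2.ring]
    exact ⟨fun h => ⟨h.1.1, h.2⟩, fun h => ⟨⟨h.1, h.2.trans h1.sub⟩, h.2⟩⟩
  cut := fun K hK => by
    have h3 : K ∩ q.Y ∈ q.R := (h2.ring _).2 ⟨h2.cut K hK, inter_subset_right⟩
    have h4 := ((h2.ring _).1 (h1.cut _ h3)).1
    rwa [inter_assoc, inter_eq_right.2 h1.sub] at h4
  rk := fun x hx => by rw [h2.rk x (h1.sub hx), h1.rk x hx]

/-- Closed sets of `q` are closed in the clopen subspace `p`. -/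
theorem Cp.cl (h : Cp p q) {E : Set Ω} (hE : Cl q.Y q.R E) : Cl p.Y p.R (E ∩ p.Y) := by
  refine ⟨inter_subset_right, fun x hx hxE => ?_⟩
  obtain ⟨K, hK, hxK, hKE⟩ := hE.2 x (h.sub hx) fun h' => hxE ⟨h', hx⟩
  refine ⟨K ∩ p.Y, (h.ring _).2 ⟨h.cut K hK, inter_subset_right⟩, ⟨hxK, hx⟩, ?_⟩
  rw [← subset_empty_iff, ← hKE]
  exact fun y hy => ⟨hy.1.1, hy.2.1⟩

/-- The complement of the clopen subspace is clopen. -/
theorem Cp.diff (h : Cp p q) (hq : GR q.Y q.R q.r) : ∀ K ∈ q.R, K ∩ (q.Y \ p.Y) ∈ q.R := by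
  intro K hK
  have h1 : K ∩ (q.Y \ p.Y) = K \ (K ∩ p.Y) := by
    ext x
    have h0 : x ∈ K → x ∈ q.Y := fun h' => hq.sub K hK h'
    simp only [mem_inter_iff, mem_sdiff]
    tauto
  rw [h1]
  exact hq.df _ hK _ (h.cut K hK)

/-- The rank of a closed set of `q`, restricted to `p`. -/
theorem Cp.rank (h : Cp p q) (hq : GR q.Y q.R q.r) {E : Set Ω} {r' : Ω → Ordinal.{0}}
    (hE : GR E (tr q.R E) r') : GR (E ∩ p.Y) (tr p.R (E ∩ p.Y)) r' := by
  have h1 : GR (E ∩ p.Y) (tr (tr q.R E) (E ∩ p.Y)) r' := by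
    refine h61_clopen hE inter_subset_left ?_
    rintro K ⟨K', hK', rfl⟩
    refine ⟨K' ∩ p.Y, h.cut K' hK', ?_⟩
    ext x
    simp only [mem_inter_iff]
    tauto
  have h2 : tr (tr q.R E) (E ∩ p.Y) = tr p.R (E ∩ p.Y) := by
    ext O
    constructor
    · rintro ⟨K, ⟨K', hK', rfl⟩, rfl⟩
      refine ⟨K' ∩ p.Y, (h.ring _).2 ⟨h.cut K' hK', inter_subset_right⟩, ?_⟩
      ext x
      simp only [mem_inter_iff]
      tauto
    · rintro ⟨K, hK, rfl⟩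
      refine ⟨K ∩ E, ⟨K, ((h.ring _).1 hK).1, rfl⟩, ?_⟩
      ext x
      simp only [mem_inter_iff]
      tauto
  rwa [h2] at h1

theorem Le.refl' (h : GR p.Y p.R p.r) : Le p p where
  cp := Cp.refl' h
  S := subset_rfl
  h := fun _ _ _ _ => rfl
  out := fun _ _ x hx hx' => absurd hx hx'
  fr := fun _ _ hg => h61_noedge (fun _ _ _ e => e.2.2.1 e.2.1) hg
  pr := by
    intro K _
    refine (finite_singleton (1 : FreeGroup I)).subset ?_
    rintro g ⟨x, -, y, -, hg⟩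
    exact h61_noedge (fun _ _ _ e => e.2.2.1 e.2.1) hg

theorem Le.trans' (hr : Basic α r) (hq : Basic α q) (h1 : Le r q) (h2 : Le q p) : Le r p := by
  have hA : ∀ i x y, New p r i x y → (x ∈ q.Y ↔ y ∈ q.Y) := by
    rintro i x y ⟨hi, hx, hxp, rfl⟩
    constructor
    · intro hxq
      rw [h1.h i (h2.S hi) x hxq]
      exact (hq.ce i (h2.S hi)).maps x hxq
    · intro hy
      by_contra hxq
      exact h1.out i (h2.S hi) x hx hxq hy
  have hA' : ∀ i x y, New p r i x y → (x ∈ q.Yᶜ ↔ y ∈ q.Yᶜ) := fun i x y e =>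
    not_congr (hA i x y e)
  have hB : ∀ i x y, New p r i x y → x ∈ q.Y → New p q i x y := by
    rintro i x y ⟨hi, hx, hxp, rfl⟩ hxq
    exact ⟨hi, hxq, hxp, h1.h i (h2.S hi) x hxq⟩
  have hB' : ∀ i x y, New p r i x y → x ∈ q.Yᶜ → New q r i x y := by
    rintro i x y ⟨hi, hx, hxp, rfl⟩ hxq
    exact ⟨h2.S hi, hx, hxq, rfl⟩
  refine ⟨Cp.trans' h2.cp h1.cp, h2.S.trans h1.S, ?_, ?_, ?_, ?_⟩
  · intro i hi x hx
    rw [h1.h i (h2.S hi) x (h2.cp.sub hx), h2.h i hi x hx]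
  · intro i hi x hx hxp
    by_cases hxq : x ∈ q.Y
    · rw [h1.h i (h2.S hi) x hxq]
      exact h2.out i hi x hxq hxp
    · exact fun h => h1.out i (h2.S hi) x hx hxq (h2.cp.sub h)
  · intro g x hg
    by_cases hxq : x ∈ q.Y
    · exact h2.fr g x (h61_part hA hB hg hxq).1
    · exact h1.fr g x (h61_part hA' hB' hg hxq).1
  · intro K hK
    have hK' : K ∩ q.Y ∈ q.R := (h1.cp.ring _).2 ⟨h1.cp.cut K hK, inter_subset_right⟩
    refine ((h2.pr _ hK').union (h1.pr K hK)).subset ?_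
    rintro g ⟨x, hx, y, hy, hg⟩
    by_cases hxq : x ∈ q.Y
    · obtain ⟨hg1, hyq⟩ := h61_part hA hB hg hxq
      exact Or.inl ⟨x, ⟨hx, hxq⟩, y, ⟨hy, hyq⟩, hg1⟩
    · exact Or.inr ⟨x, hx, y, hy, (h61_part hA' hB' hg hxq).1⟩

theorem Full.pf (hp : Basic α p) : PF (Full p) := by
  constructor
  · rintro i x y z ⟨-, -, rfl⟩ ⟨-, -, rfl⟩
    rfl
  · rintro i x y z ⟨hi, hx, rfl⟩ ⟨-, hy, h⟩
    exact (hp.ce i hi).inj hx hy h

theorem Le.full (h : Le q p) : ∀ i x y, Full p i x y → Full q i x y := by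
  rintro i x y ⟨hi, hx, rfl⟩
  exact ⟨h.S hi, h.cp.sub hx, (h.h i hi x hx).symm⟩

/-- Paths of the letters of `p` in `q` do not cross the boundary of `p`. -/
theorem Le.stay (h : Le q p) (hp : Basic α p) :
    ∀ i x y, i ∈ p.S → Full q i x y → (x ∈ p.Y ↔ y ∈ p.Y) := by
  rintro i x y hi ⟨-, hx, rfl⟩
  constructor
  · intro hxp
    rw [h.h i hi x hxp]
    exact (hp.ce i hi).maps x hxp
  · intro hy
    by_contra hxp
    exact h.out i hi x hx hxp hy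

theorem New.pf (hq : Basic α q) (hS : p.S ⊆ q.S) : PF (New p q) := by
  constructor
  · rintro i x y z ⟨-, -, -, rfl⟩ ⟨-, -, -, rfl⟩
    rfl
  · rintro i x y z ⟨hi, hx, -, rfl⟩ ⟨-, hy, -, h⟩
    exact (hq.ce i (hS hi)).inj hx hy h

end F1

end Pool.Agent.Helper33.QB
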